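import Pool.Agent.helper17.EXT.Spec

set_option autoImplicit false

/-!
# Row GFX of project EXT: the group `GF τ`
-/

open Finset

namespace Pool.Agent.EXT

open Pool.Agent.EXC

/-- a third vector can be carried along a chain of reflections -/
theorem GFX_chain (w : Fin 6 → ℤ) {p q : (Fin 6 → ℤ) × (Fin 6 → ℤ)} (h : WS p q) :
    ∃ w', WS (p.1, w) (q.1, w') := by
  induction h with
  | refl => exact ⟨w, Relation.ReflTransGen.refl⟩
  | tail _ hbc ih =>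
    obtain ⟨w', hw'⟩ := ih
    obtain ⟨i, hi⟩ := hbc
    refine ⟨wS i w', Relation.ReflTransGen.tail hw' ⟨i, ?_⟩⟩
    rw [hi]

/-- every long root has a long root with product `-1` -/
theorem GFX_long (hRTF : RTF_stmt) (hWST : WST_stmt) {β : Fin 6 → ℤ} (hβ : LR β) :
    ∃ δ, LR δ ∧ ip C6 β δ = -1 := by
  have hs := hRTF.2.2.2.2.1
  have l1 : LR (sr 1) := ⟨ip_sr_self C6 1, by rw [hs 1]; rfl⟩
  have l3 : LR (sr 3) := ⟨ip_sr_self C6 3, by rw [hs 3]; rfl⟩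
  have h1 := hWST.1 (sr 1) (sr 1) β β l1 l1 hβ hβ (by rw [l1.1, hβ.1])
  obtain ⟨δ, hδ⟩ := GFX_chain (sr 3) h1
  obtain ⟨e1, _, e3, _, e5, _⟩ := hWST.2.2 _ _ hδ
  refine ⟨δ, ⟨?_, ?_⟩, ?_⟩
  · exact e3.trans l3.1
  · exact e5.1 l3.2
  · refine e1.trans ?_
    show ip C6 (sr 1) (sr 3) = -1
    rw [ip_sr_sr]
    decide

theorem GFX (hRTF : RTF_stmt) (hSIG : SIG_stmt) (hSGR : SGR_stmt) (hESF : ESF_stmt) (hACS : ACS_stmt)
    (hWST : WST_stmt) : GFX_stmt := by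
  intro K _ τ hτ
  obtain ⟨_, _, _, _, _, hG⟩ := hSGR K τ hτ
  have hbeta := (f_NBR 6 C6 1 th ![0, 2, 3, 4, 5] f_DE6.2).1
  obtain ⟨_, _, E3, _⟩ := f_EXF 6 C6 K hbeta
  -- permutations induced by elements of the group
  have hperm : ∀ g ∈ GS τ, ∃ f ∈ GF τ, ∀ v : LT τ, (f v : Lm C6 K) = g v := by
    intro g hg
    have hc := (hG g hg).2.2
    have hc' := (hG g⁻¹ (inv_mem hg)).2.2
    refine ⟨{ toFun := fun v => ⟨g v, ?_⟩, invFun := fun v => ⟨g⁻¹ v, ?_⟩, left_inv := ?_, right_inv := ?_ },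
      ⟨g, hg, fun _ => rfl⟩, fun _ => rfl⟩
    · show si τ (g v) = g v
      rw [hc, v.2]
    · show si τ (g⁻¹ v) = g⁻¹ v
      rw [hc', v.2]
    · intro v
      apply Subtype.ext
      exact LinearEquiv.symm_apply_apply g _
    · intro v
      apply Subtype.ext
      exact LinearEquiv.apply_symm_apply g _
  refine ⟨hperm, ?_⟩
  intro a ha
  obtain ⟨hEx, _, hsa, _, _, hA6, _, _⟩ := (hESF K τ hτ).2 a ha
  have hXtr : Xtr C6 a := (E3 a hEx).1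
  obtain ⟨X1, _, X3, X4⟩ := f_XAU 6 C6 K a hXtr
  refine ⟨?_, ?_, ?_, ?_, ?_⟩
  · intro t ht
    obtain ⟨g, hg, hX⟩ := hA6 t ht
    obtain ⟨f, hf, hfg⟩ := hperm g hg
    exact ⟨f, hf, fun v => by rw [hfg v]; exact hX v⟩
  · intro t f ht hf
    obtain ⟨g, hg, hX⟩ := hA6 t ht
    exact ⟨g, hg, fun v => by rw [hf v]; exact (hX v).symm⟩
  · intro s t f f' hf hf' v
    rw [Equiv.Perm.mul_apply, hf, hf', X1]
  · intro s t f hf hf'
    obtain ⟨g, hg, β, hβ, c, hc, hc0, rfl⟩ := ha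
    obtain ⟨hgE, hAu, hcomm⟩ := hG g hg
    obtain ⟨δ, hδ, hip⟩ := GFX_long hRTF hWST hβ
    have hδX : ExS τ (E C6 δ : Lm C6 K) := (hESF K τ hτ).1 δ hδ
    have hδs : si τ (E C6 δ : Lm C6 K) = E C6 δ := ((hESF K τ hτ).2 _ hδX).2.2.1
    have hv0 : g (E C6 δ : Lm C6 K) ∈ LT τ := by
      show si τ (g (E C6 δ)) = g (E C6 δ)
      rw [hcomm, hδs]
    have hXb : Xtr C6 (E C6 β : Lm C6 K) := (E3 _ ((f_EXF 6 C6 K hbeta).2.1 β hβ.1)).1
    obtain ⟨_, _, Y3, _⟩ := f_XAU 6 C6 K (E C6 β) hXb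
    obtain ⟨hXgb, Y3'⟩ := Y3 g hAu
    have key : ∀ r : K, xe C6 (c • g (E C6 β)) r (g (E C6 δ)) =
        g (E C6 δ + ((c * r) * (sg C6 β δ : K)) • E C6 (β + δ)) := by
      intro r
      rw [((f_XAU 6 C6 K (g (E C6 β)) hXgb).2.2.2 c).2 r, ← Y3' (c * r) (E C6 δ),
        (f_ACT 6 C6 K β (c * r) hβ.1).2.1 δ hδ.1 hip]
    have h1 : xe C6 (c • g (E C6 β)) s (g (E C6 δ)) = xe C6 (c • g (E C6 β)) t (g (E C6 δ)) := by
      rw [← hf ⟨g (E C6 δ), hv0⟩, ← hf' ⟨g (E C6 δ), hv0⟩]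
    rw [key s, key t] at h1
    have h2 := add_left_cancel (g.injective h1)
    have hroot : ip C6 (β + δ) (β + δ) = 2 := (add_root_iff hβ.1 hδ.1).2 hip
    have h3 : ((c * s) * (sg C6 β δ : K) - (c * t) * (sg C6 β δ : K)) • (E C6 (β + δ) : Lm C6 K) = 0 := by
      rw [sub_smul, h2, sub_self]
    rcases smul_eq_zero.1 h3 with h4 | h4
    · have h5 : c * (s - t) * (sg C6 β δ : K) = 0 := by linear_combination h4
      rcases mul_eq_zero.1 h5 with h6 | h6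
      · rcases mul_eq_zero.1 h6 with h7 | h7
        · exact absurd h7 hc0
        · exact sub_eq_zero.1 h7
      · exact absurd h6 (sg_ne_zero C6 β δ)
    · exact absurd h4 (E_ne_zero C6 hroot)
  · intro f hf g hg hfg t h hh v
    have hAu := (hG g hg).2.1
    rw [Equiv.Perm.mul_apply, Equiv.Perm.mul_apply, hfg, hh, (X3 g hAu).2 t, ← hfg]
    have e : f (f⁻¹ v) = v := f.apply_symm_apply v
    rw [e]

end Pool.Agent.EXT
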