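import Pool.Agent.helper32.EXT.Spec7

/-!
# Project EXT (MP_561ff4_al), block H, row WA7: words
-/

set_option autoImplicit false

open Finset

namespace Pool.Agent.EXT

open Pool.Agent.EXC

theorem WA7_cv (χ a b : Fin 6 → ℤ) : cv7 χ (a + b) = cv7 χ a + cv7 χ b := by
  unfold cv7
  rw [← Finset.sum_add_distrib]
  refine Finset.sum_congr rfl fun i _ => ?_
  rw [Pi.add_apply, mul_add]

theorem WA7_m1 (k : Fin 24) : mu7 (ta7 k).2.1 = lt7 k + mu7 (ta7 k).1 := by
  rcases ta7_spec k (ta7 k).1 with h | h | h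
  · exact h.2.2.2.1
  · exact absurd rfl h.2.1
  · exact absurd rfl h.1

theorem WA7_m2 (k : Fin 24) : mu7 (ta7 k).2.2.2.2.1 = lt7 k + mu7 (ta7 k).2.2.2.1 := by
  rcases ta7_spec k (ta7 k).2.2.2.1 with h | h | h
  · exact absurd rfl h.2.1
  · exact h.2.2.2.1
  · exact absurd rfl h.2.1

theorem WA7_st {K : Type} [Field K] (χ : Fin 6 → ℤ) (c : K) (hc : c ≠ 0) (k : Fin 24) (t : ℤ) (v : Fin 8 → ℤ) :
    st7 k ((t : K) * c ^ (cv7 χ (lt7 k))) (fun i => (v i : K) * c ^ (cv7 χ (mu7 i))) =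
      fun i => (sz7 k t v i : K) * c ^ (cv7 χ (mu7 i)) := by
  funext j
  unfold st7 sz7
  push_cast
  rw [add_mul, add_mul]
  refine congrArg₂ (fun x y : K => x + y) (congrArg₂ (fun x y : K => x + y) rfl ?_) ?_
  · split_ifs with h
    · rw [h, WA7_m1, WA7_cv, zpow_add₀ hc]
      ring
    · rw [zero_mul]
  · split_ifs with h
    · rw [h, WA7_m2, WA7_cv, zpow_add₀ hc]
      ring
    · rw [zero_mul]

theorem WA7 (hLA7 : LA7_stmt) : WA7_stmt := by
  intro K _ τ _ χ c hτ hc l l'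
  have hX : ∀ (k : Fin 24) (t : K), IsX C6 (E C6 (lt7 k)) t (XG C6 (lt7 k) t) ∧ XG C6 (lt7 k) t ∈ GE C6 K ∧
      (XG C6 (lt7 k) t)⁻¹ = XG C6 (lt7 k) (-t) := fun k t => g_XG K (lt7 k) (lt7_LR k).1 t
  have hcons : ∀ (p : Fin 24 × ℤ) (l : List (Fin 24 × ℤ)),
      gw7 χ c (p :: l) = XG C6 (lt7 p.1) ((p.2 : K) * c ^ (cv7 χ (lt7 p.1))) * gw7 χ c l := by
    intro p l
    unfold gw7
    rw [List.map_cons, List.prod_cons]
  have happ : ∀ l l' : List (Fin 24 × ℤ), gw7 χ c (l ++ l') = gw7 χ c l * gw7 χ c l' := by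
    intro l l'
    unfold gw7
    rw [List.map_append, List.prod_append]
  have hnil : gw7 χ c [] = 1 := by
    unfold gw7
    rw [List.map_nil, List.prod_nil]
  refine ⟨?_, ?_, happ l l', ?_⟩
  · induction l with
    | nil =>
      rw [hnil]
      exact one_mem _
    | cons p l ih =>
      rw [hcons]
      refine mul_mem (Subgroup.subset_closure (Or.inl ⟨lt7 p.1, (p.2 : K) * c ^ (cv7 χ (lt7 p.1)), lt7_LR p.1, ?_, (hX _ _).1⟩)) ih
      rw [map_mul, map_zpow₀, hτ, map_intCast]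
  · induction l with
    | nil =>
      show gw7 χ c [] = (gw7 χ c [])⁻¹
      rw [hnil, inv_one]
    | cons p l ih =>
      have h1 : wi7 (p :: l) = wi7 l ++ [(p.1, -p.2)] := by
        unfold wi7
        rw [List.map_cons, List.reverse_cons]
      rw [h1, happ, ih, hcons, hcons, hnil, mul_one, mul_inv_rev, (hX _ _).2.2]
      push_cast
      rw [neg_mul]
  · intro v
    induction l with
    | nil =>
      rw [hnil]
      rfl
    | cons p l ih =>
      rw [hcons, LinearEquiv.mul_apply, ih, (hX _ _).1, hLA7, WA7_st χ c hc]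
      rfl

end Pool.Agent.EXT
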